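import Pool.Agent.Run7.h606.DB.Gal
import Pool.Agent.Run7.h709.CW.Base

/-!
# The flag complex inequality with Coxeter edge weights from centrally symmetric right-angled spheres

The flag homology sphere `S` (over the reals, of dimension `2 m - 1`, `HSph (2 m) G`) is the flag complex of the graph
`G`. The edges get weights `w e ≥ 2`, and the numbers `N σ` are the orders of the Coxeter groups `W_σ`, or any
rational numbers with the properties in the definition `Orders`. `omegaN G N` is the sum of the `(-1)^|σ| / N σ`, and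
`chiW G` the sum of the `(-1/2)^|σ|`, over the cliques `σ` of `G`. `S` is centrally symmetric (`CSym G`) if it has an
involutive automorphism such that no vertex is equal or adjacent to its image; then no nonempty face is mapped to
itself.

We show that the inequality `(-1)^m ω(S) ≥ 0` for all flag homology spheres of dimension at most `2 m - 1` and all
Coxeter edge weights is equivalent to the right-angled inequality `(-1)^m χ(S) ≥ 0` for those spheres which are
centrally symmetric and have at least `M` vertices, for any number `M`. Moreover, if the weighted inequality fails for a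
weighted sphere of dimension `2 m - 1`, then for some `l ≤ m` the defect of the right-angled inequality is at least
linear in the number of vertices for suitable centrally symmetric spheres of dimension `2 l - 1` with arbitrarily many
vertices.
-/

set_option autoImplicit false

namespace Pool.Agent.Results.MP_375bfa_co.CentralSymmetry

open Pool.Agent.W907.SG Pool.Agent.W907.SM Pool.Agent.R580.CD Pool.Agent.Run7.h606.DB
open Pool.Agent.TH652.Above (HSph)
open Pool.Agent.W497.FS (lam lkF)
open Pool.Agent.R703.CW (Orders omegaN hsph_link chiW_link chiW_eq)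
open Run7.h709.CW

/-- negative gamma numbers and the Euler characteristic -/
theorem chi_csym {V : Type} [Fintype V] [LinearOrder V] {l : ℕ} {G : SimpleGraph V}
    (hS : HSph (2 * l) G) (hneg : (-1 : ℚ) ^ l * chiW G < 0) : ∃ c : ℚ, 0 < c ∧ ∀ M : ℕ,
    ∃ (U : Type) (_ : Fintype U) (_ : LinearOrder U) (H : SimpleGraph U), HSph (2 * l) H ∧ CSym H ∧
      M ≤ Fintype.card U ∧ (-1 : ℚ) ^ l * chiW H ≤ - c * Fintype.card U := by
  have hchi : ∀ {U : Type} [Fintype U] [LinearOrder U] {H : SimpleGraph U}, Sph ℝ (2 * l) H →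
      (-1 : ℚ) ^ l * chiW H = (1 / 4) ^ l * (gam (2 * l) H l : ℚ) := by
    intro U _ _ H hH
    rw [chi_gam hH, ← mul_assoc, ← mul_pow]
    norm_num
  have hS' := hsph_iff.1 hS
  have h4 : (0 : ℚ) < (1 / 4) ^ l := by positivity
  have hg : gam (2 * l) G l < 0 := by
    rw [hchi hS'] at hneg
    have : (gam (2 * l) G l : ℚ) < 0 := by
      by_contra hcon
      push Not at hcon
      exact absurd hneg (not_lt.2 (mul_nonneg h4.le hcon))
    exact_mod_cast this
  obtain ⟨c, hc, h⟩ := top_csym hS' hg
  refine ⟨(1 / 4) ^ l * c, by positivity, fun M => ?_⟩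
  obtain ⟨U, i1, i2, H, h1, h2, h3, h5⟩ := h M
  refine ⟨U, i1, i2, H, hsph_iff.2 h1, h3, h2, ?_⟩
  rw [hchi h1]
  calc (1 / 4 : ℚ) ^ l * (gam (2 * l) H l : ℚ) ≤ (1 / 4) ^ l * (- c * Fintype.card U) :=
        mul_le_mul_of_nonneg_left h5 h4.le
    _ = _ := by ring

/-- the right-angled orders -/
theorem orders_ra {V : Type} [Fintype V] [LinearOrder V] (G : SimpleGraph V) :
    Orders G (fun _ => 2) (fun T => 2 ^ T.card) := by
  classical
  refine ⟨by simp, fun v => by simp, fun u v h => ?_, fun A B hAB _ _ => ?_, fun T _ h3 hcon => ?_⟩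
  · rw [Finset.card_pair h.ne]
    norm_num
  · rw [Finset.card_union_of_disjoint hAB, pow_add]
  · exfalso
    obtain ⟨v, hv⟩ : T.Nonempty := by
      rw [← Finset.card_pos]
      omega
    obtain ⟨a, _, b, _, _, h⟩ := hcon {v} (Finset.singleton_subset_iff.2 hv) (Finset.singleton_nonempty v) (by
      intro e
      rw [← e, Finset.card_singleton] at h3
      omega)
    exact h rfl

theorem omega_ra {V : Type} [Fintype V] [LinearOrder V] (G : SimpleGraph V) :
    omegaN G (fun T => 2 ^ T.card) = chiW G := by
  unfold omegaN chiW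
  refine Finset.sum_congr rfl fun T _ => ?_
  split_ifs
  · rw [div_pow]
  · rfl

/-- **Reduction to centrally symmetric right-angled spheres.** (1) For all `m` and `M` the inequality
`(-1)^j ω ≥ 0` holds for all flag real homology spheres of dimension `2 j - 1`, `j ≤ m`, and all Coxeter edge weights
if and only if the right-angled inequality `(-1)^j χ ≥ 0` holds for all centrally symmetric flag real homology spheres
of dimension `2 j - 1`, `j ≤ m`, with at least `M` vertices. (2) If `(-1)^m ω < 0` for a flag real homology sphere of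
dimension `2 m - 1` and some weights, then there are `l ≤ m` and `c > 0` such that for all `M` there is a centrally
symmetric flag real homology sphere `H` of dimension `2 l - 1` with at least `M` vertices and
`(-1)^l χ(H) ≤ - c f_0(H)`. -/
theorem result :
    (∀ m M : ℕ,
      (∀ j ≤ m, ∀ (V : Type) [Fintype V] [LinearOrder V] (G : SimpleGraph V), HSph (2 * j) G →
        ∀ (w : Finset V → ℕ) (N : Finset V → ℚ), Orders G w N → 0 ≤ (-1 : ℚ) ^ j * omegaN G N) ↔
      ∀ j ≤ m, ∀ (V : Type) [Fintype V] [LinearOrder V] (G : SimpleGraph V), HSph (2 * j) G → CSym G →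
        M ≤ Fintype.card V → 0 ≤ (-1 : ℚ) ^ j * chiW G) ∧
    (∀ (m : ℕ) (V : Type) [Fintype V] [LinearOrder V] (G : SimpleGraph V), HSph (2 * m) G →
      ∀ (w : Finset V → ℕ) (N : Finset V → ℚ), Orders G w N → (-1 : ℚ) ^ m * omegaN G N < 0 →
      ∃ l ≤ m, ∃ c : ℚ, 0 < c ∧ ∀ M : ℕ, ∃ (U : Type) (_ : Fintype U) (_ : LinearOrder U) (H : SimpleGraph U),
        HSph (2 * l) H ∧ CSym H ∧ M ≤ Fintype.card U ∧ (-1 : ℚ) ^ l * chiW H ≤ - c * Fintype.card U) := by
  classical
  have key : ∀ (m : ℕ) (V : Type) [Fintype V] [LinearOrder V] (G : SimpleGraph V), HSph (2 * m) G →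
      ∀ (w : Finset V → ℕ) (N : Finset V → ℚ), Orders G w N → (-1 : ℚ) ^ m * omegaN G N < 0 →
      ∃ l ≤ m, ∃ c : ℚ, 0 < c ∧ ∀ M : ℕ, ∃ (U : Type) (_ : Fintype U) (_ : LinearOrder U) (H : SimpleGraph U),
        HSph (2 * l) H ∧ CSym H ∧ M ≤ Fintype.card U ∧ (-1 : ℚ) ^ l * chiW H ≤ - c * Fintype.card U := by
    intro m V _ _ G hS w N hN hneg
    by_cases hG : (-1 : ℚ) ^ m * chiW G < 0
    · obtain ⟨c, hc, h⟩ := chi_csym hS hG
      exact ⟨m, le_rfl, c, hc, h⟩
    · push Not at hG
      by_cases hcd : ∀ T : Finset V, G.IsClique (T : Set V) → T.Nonempty → Pool.Agent.R703.CW.Heavy w T →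
          ¬ OddBlock w T → ∀ j l, T.card = 2 * j → j + l = m → 2 ≤ l → 0 ≤ (-1) ^ l * lam G (lkF G Finset.univ T)
      · exact absurd (hG.trans (weighted_ge' hS w N hN hcd)) (not_le.2 hneg)
      · push Not at hcd
        obtain ⟨T, hT, _, _, _, j, l, hj, hl, _, h⟩ := hcd
        have hfin : Fintype ↥(lk G T) := Fintype.ofFinite _
        have h1 := hsph_link hS T hT
        rw [show 2 * m - T.card = 2 * l by omega] at h1
        rw [← chiW_link T] at h
        obtain ⟨c, hc, h2⟩ := chi_csym h1 h
        exact ⟨l, by omega, c, hc, h2⟩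
  refine ⟨fun m M => ⟨fun h j hj V _ _ G hS _ _ => ?_, fun h j hj V _ _ G hS w N hN => ?_⟩, key⟩
  · have h1 := h j hj V G hS (fun _ => 2) (fun T => 2 ^ T.card) (orders_ra G)
    rwa [omega_ra] at h1
  · by_contra hcon
    push Not at hcon
    obtain ⟨l, hl, c, hc, h1⟩ := key j V G hS w N hN hcon
    obtain ⟨U, i1, i2, H, h2, h3, h4, h5⟩ := h1 (M + 1)
    have h6 := h l (by omega) U H h2 h3 (by omega)
    have h7 : (0 : ℚ) < Fintype.card U := by
      have : 0 < Fintype.card U := by omega
      exact_mod_cast this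
    nlinarith

end Pool.Agent.Results.MP_375bfa_co.CentralSymmetry
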