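import Pool.Agent.Run7.h709.CW.Col

/-!
# The flag complex inequality with Coxeter edge weights for coloured subdivisions

Let `X` be a simplicial complex with vertices coloured by `k` colours, its simplices with all vertices of the colour
`c` having at most `2 a c` vertices. The colourwise barycentric subdivision `cs X col` has the nonempty monochromatic
simplices of `X` as vertices. (One colour: the barycentric subdivision. If the monochromatic simplices have at most
two vertices: the monochromatic edges are subdivided by their midpoints.) We assume that `cs X col` is a homology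
sphere of dimension `2 m - 1` over the reals, and is contained in a homology sphere of dimension at most `2 m` over
the field with two elements. So `2 m ≤ 2 ∑ a c`.

The edges of `cs X col` get weights `w e ≥ 2`, and the numbers `M σ` are the orders of the Coxeter groups `W_σ`, or
any rational numbers with the following properties (`Orders`): `M ∅ = 1`, `M {v} = 2`, `M e = 2 w e` for the
edges `e`, `M (A ∪ B) = M A * M B` if `A ∪ B` is a face and all edges between the disjoint sets `A` and `B` have
weight `2`, and, for the faces `T` with at least three vertices which are connected by the edges of weight different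
from `2`, the sum `b T` of the `(-1/2)^|T \ U| / M U`, `U ⊆ T`, is zero if `|T|` is odd and has the sign `(-1)^j`, or is
zero, if `|T| = 2 j`. (For finite irreducible Coxeter groups `#W_T * b T` is the Charney-Davis quantity of the Coxeter
complex, and this is known.)

`omegaN (cs X col) M` is the sum of the `(-1)^|σ| / M σ` and `chiW (cs X col)` is the sum of the `(-1/2)^|σ|` over the
cliques `σ`, the faces of `cs X col`.

The dual formula `ω(S) = ∑ (-1)^|T| b T λ(lk T)`, `λ` the right-angled quantity, reduces the claim to the inequality of
Charney and Davis for the links of those nonempty faces `T` of even size, all of whose components (for the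
edges of weight different from `2`) have an even number of vertices and at least two. For the link of `T` it holds if
`2 ∑ a c + oddColours T ≤ 2 m + 2`, where `oddColours T` is the number of the colours `c` such that `T` has an odd
number of vertices of the colour `c`. For `|T| ≥ 2 m - 2` there is no condition.
-/

set_option autoImplicit false

namespace Pool.Agent.Results.MP_375bfa_co.ColouredCoxeter

open Pool.Agent.W907.SG Pool.Agent.R782.Bal Run7.h709.CW
open Pool.Agent.TH652.Above (HSph)
open Pool.Agent.R703.CW (Orders omegaN Heavy)
open Y365.FS (ordM)

/-- Let `S = cs X col` be the colourwise subdivision of a simplicial complex `X`, coloured by `k` colours, whose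
simplices with all vertices of the colour `c` have at most `2 a c` vertices. Let `S` be a homology sphere of dimension
`2 m - 1` over the reals which is contained in a homology sphere of dimension at most `2 m` over the field with two
elements, and let `∑ a c ≤ m + 1`. Then the inequality `(-1)^m ω(S) ≥ 0` of Charney and Davis with Coxeter weights
holds, and more precisely `(-1)^m ω(S) ≥ (-1)^m χ ≥ 0`, `χ` the right-angled quantity, in each of the following three
cases. (1) `2 ∑ a c + min k (2 m - 4) ≤ 2 m + 3`, and the weights are arbitrary (for instance `∑ a c = m`, with at most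
three colours, or with any number of colours if `m ≤ 3`). (2) The edges of weight different from `2` join vertices of
the same colour, the number of colours is arbitrary. (3) `2 ∑ a c + oddColours T ≤ 2 m + 2` for all nonempty faces
`T` of even size at most `2 m - 4` such that each vertex of `T` is in an edge of weight different from `2` inside `T`
and no union of components of `T` for such edges has an odd number of elements. The last part: for weights
`w ≤ w'`, such that the edges `e` with `w' e ≠ 2` inside each face are pairwise disjoint, so that the orders of the
Coxeter groups are `ordM w' σ = 2^|σ| ∏ (w' e / 2)`, one has `(-1)^m ω(S, w) ≤ (-1)^m ω(S, w')` under the same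
conditions (1), (2) or (3) for `w'`. -/
theorem result (m N k : ℕ) (X : Finset (Finset (Fin N))) (col : Fin N → Fin k) (a : Fin k → ℕ)
    (hX : ∀ σ ∈ X, ∀ τ : Finset (Fin N), τ ⊆ σ → τ ∈ X)
    (ha : ∀ σ ∈ X, ∀ c, (∀ v ∈ σ, col v = c) → σ.card ≤ 2 * a c) (hm : ∑ c, a c ≤ m + 1)
    [Fintype (MF X col)] [LinearOrder (MF X col)] (hS : HSph (2 * m) (cs X col)) (hS2 : Mod2 (2 * m) (cs X col))
    (w : Finset (MF X col) → ℕ)
    (h : 2 * ∑ c, a c + min k (2 * m - 4) ≤ 2 * m + 3 ∨
      (∀ x y, (cs X col).Adj x y → w {x, y} ≠ 2 → mc x = mc y) ∨
      ∀ T : Finset (MF X col), (cs X col).IsClique (T : Set (MF X col)) → T.Nonempty → Even T.card →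
        T.card + 4 ≤ 2 * m → Heavy w T → ¬ OddBlock w T → 2 * ∑ c, a c + oddColours T ≤ 2 * m + 2) :
    (∀ M : Finset (MF X col) → ℚ, Orders (cs X col) w M → 0 ≤ (-1 : ℚ) ^ m * chiW (cs X col) ∧
      (-1 : ℚ) ^ m * chiW (cs X col) ≤ (-1) ^ m * omegaN (cs X col) M) ∧
    (∀ w' : Finset (MF X col) → ℕ, (∀ e, 2 ≤ w' e) → (∀ e, w' e ≤ w e) →
      (∀ u v z, (cs X col).Adj u v → (cs X col).Adj u z → (cs X col).Adj v z → w {u, v} = 2 ∨ w {u, z} = 2) →
      (-1 : ℚ) ^ m * omegaN (cs X col) (ordM w') ≤ (-1) ^ m * omegaN (cs X col) (ordM w)) := by
  have key : ∀ T : Finset (MF X col), (cs X col).IsClique (T : Set (MF X col)) → T.Nonempty → Even T.card →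
      T.card + 4 ≤ 2 * m → Heavy w T → ¬ OddBlock w T → 2 * ∑ c, a c + oddColours T ≤ 2 * m + 2 := by
    intro T hT hne he h4 hh ho
    rcases h with h | h | h
    · exact num_col a h T he h4
    · exact mono_col a hm w h T hT ho
    · exact h T hT hne he h4 hh ho
  refine ⟨fun M hM => ⟨ra_col a hX ha hS hS2 hm, ge_col a hX ha hS hS2 w M hM key⟩, fun w' h2 hle hmat => ?_⟩
  exact weighted_mono' hS w' w h2 hle hmat fun T hT hne hh ho j l hj hl hl2 =>
    cd_col a hX ha hS hS2 T hT (key T hT hne ⟨j, by omega⟩ (by omega) hh ho) j l hj hl

end Pool.Agent.Results.MP_375bfa_co.ColouredCoxeter
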