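import Pool.Agent.Run7.h714.DU.Gen

/-!
# The flag complex inequality with Coxeter edge weights in dimension 5: bounds for `-ω`

The flag 5-sphere `S` is the flag complex of the finite graph `G`; `Sph F 6 G` says that it is a homology 5-sphere
(with all its links) over the field `F`. The edges get weights `m e ≥ 2`, and the numbers `M σ` are the orders of the
Coxeter groups `W_σ`, or any rational numbers with the following properties (`Orders G m M`): `M ∅ = 1`, `M {v} = 2`,
`M e = 2 m e` for the edges `e`, `M (A ∪ B) = M A * M B` if `A ∪ B` is a face and all edges between the disjoint sets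
`A` and `B` have weight `2`, and, for the faces `T` with at least three vertices which are connected by the edges of
weight different from `2`, the sum `b T` of the `(-1/2)^|T \ U| / M U`, `U ⊆ T`, is zero if `|T|` is odd and has the
sign `(-1)^j`, or is zero, if `|T| = 2 j`. (For finite irreducible Coxeter groups `#W_T * b T` is the Charney-Davis
quantity of the Coxeter complex, and this is known.) `omegaN G M = ω(S)` is the sum of the `(-1)^|σ| / M σ` over the
faces `σ`, and `chiL G e`, the sum of the `(-1/2)^|σ|` over the faces `σ` of the link of the edge `e`, is the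
(right-angled) Charney-Davis quantity of the flag 3-sphere `lk e`, which is nonnegative by the theorem of Davis and
Okun. The conjecture is `ω(S) ≤ 0`.

**Results.** 1. `ω(S) ≤ ∑_e χ(lk e) / #W_e`, the sum over all edges, for all weights. More precisely,
`ω(S) ≤ ∑_(e without vertices in I) χ(lk e) / #W_e - ∑_(e with a vertex in I) (1/4 - 1/#W_e) χ(lk e)` for every set `I`
of vertices which contains no triangle of `S`, and if `S` is also a homology sphere over the field with two elements,
for every `I` whose full subcomplex can be properly coloured by three colours. Here `#W_e = 2 m e ≥ 4`, so that all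
terms of the second sum are nonnegative.
2. If `S` is also a homology sphere over the field with two elements and has a proper colouring by `k` colours then
`ω(S) ≤ ∑_e (1/#W_e - (1 - θ)/4) χ(lk e)` with `θ = C(k-2, 3) / C(k, 3)`; for balanced spheres (`k = 6`)
`ω(S) ≤ ∑_e (1/#W_e - 1/5) χ(lk e)`, so that edges of weight at least `3` count with the right sign.

The proof combines the expansion of `ω(S)` in the quantities of the links with the inequality
`4 χ(S) ≤ ∑ χ(lk e)`, the sum over the edges without vertices in `I`, for flag homology 5-spheres, which is proved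
with `ℓ²`-homology: `b_3(W_A) ≤ (1/4) ∑_(w ∈ A \ A₀) χ(lk w)` for every full subcomplex `A` of a flag homology
4-sphere, where `A₀ ⊆ A` is coloured by three colours (or `b_3(W_(A₀)) = 0`), by a half-lives-half-dies argument
(Poincaré-Lefschetz duality for the complement of a vertex) in finite quotients.
-/

set_option autoImplicit false

namespace Pool.Agent.Results.MP_375bfa_co.DimensionFive

open Pool.Agent.R580.CD (Sph)
open Pool.Agent.N13.EU (chiL)
open Pool.Agent.R703.CW (Orders omegaN)

open Classical in
/-- the edges -/
noncomputable def edges {V : Type} [Fintype V] (G : SimpleGraph V) : Finset (Finset V) :=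
  Finset.univ.filter fun e => G.IsClique (e : Set V) ∧ e.card = 2

open Classical in
theorem mem_edges {V : Type} [Fintype V] {G : SimpleGraph V} {e : Finset V} :
    e ∈ edges G ↔ G.IsClique (e : Set V) ∧ e.card = 2 := by
  unfold edges
  rw [Finset.mem_filter]
  exact ⟨fun h => h.2, fun h => ⟨Finset.mem_univ _, h⟩⟩

theorem edges_eq {V : Type} [Fintype V] (G : SimpleGraph V) :
    edges G = Pool.Agent.Run7.h714.DU.cls G Finset.univ 2 := by
  ext e
  rw [Pool.Agent.Run7.h714.DU.mem_cls, mem_edges]
  exact ⟨fun h => ⟨⟨Finset.subset_univ _, h.2⟩, h.1⟩, fun h => ⟨h.2, h.1.2⟩⟩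

/-- **Coxeter weights in dimension 5.** Let the flag complex of `G` be a homology 5-sphere over the reals and let `M`
be the orders for some weights of the edges. (1) For every set `I` of vertices which contains no triangle, or which is
properly coloured by three colours if the flag complex is also a homology 5-sphere over the field with two elements,
`ω ≤ ∑ χ(lk e) / M e - ∑ (1/4 - 1/M e) χ(lk e)`, where the first sum is over the edges without vertices in `I`, and the
second one over all other edges. (2) If the flag complex is also a homology 5-sphere over the field with two elements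
and has a proper colouring by `k` colours then
`C(k, 3) ω ≤ ∑_e (C(k, 3) (1/M e - 1/4) + C(k-2, 3)/4) χ(lk e)`, the sum over all edges. -/
theorem result (V : Type) [Fintype V] [LinearOrder V] (G : SimpleGraph V) (hS : Sph ℝ 6 G) (m : Finset V → ℕ)
    (M : Finset V → ℚ) (hM : Orders G m M) :
    (∀ I : Finset V, ((∀ T ⊆ I, G.IsClique (T : Set V) → T.card ≠ 3) ∨
        (Sph (ZMod 2) 6 G ∧ ∃ c : V → Fin 3, ∀ u ∈ I, ∀ w ∈ I, G.Adj u w → c u ≠ c w)) →
      omegaN G M ≤ ∑ e ∈ (edges G).filter (fun e => Disjoint e I), chiL G e / M e -
        ∑ e ∈ (edges G).filter (fun e => ¬ Disjoint e I), (1 / 4 - 1 / M e) * chiL G e) ∧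
    (Sph (ZMod 2) 6 G → ∀ (k : ℕ) (c : V → Fin k), (∀ u w, G.Adj u w → c u ≠ c w) →
      (k.choose 3 : ℚ) * omegaN G M ≤
        ∑ e ∈ edges G, ((k.choose 3 : ℚ) * (1 / M e - 1 / 4) + ((k - 2).choose 3 : ℚ) / 4) * chiL G e) := by
  classical
  have hH := Pool.Agent.Run7.h714.DU.hsph_iff.1 hS
  refine ⟨?_, ?_⟩
  · intro I hI
    have hB : ∀ v, v ∈ Finset.univ \ I ↔ v ∉ I := fun v => by simp
    have h1 : 4 * Pool.Agent.W907.SG.chiW G ≤ Pool.Agent.Run7.h714.DU.cT G (Finset.univ \ I) 2 := by
      rcases hI with hI | ⟨hG2, c, hc⟩
      · refine Pool.Agent.Run7.h714.DU.chi_triangle hH (I : Set V) (fun T hT hTI => ?_) _ (fun v => ?_)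
        · exact hI T (Finset.coe_subset.1 hTI) hT
        · rw [hB, Finset.mem_coe]
      · refine Pool.Agent.Run7.h714.DU.chi_three hH hG2 (I : Set V) c (fun u hu w hw => ?_) _ (fun v => ?_)
        · exact hc u (Finset.mem_coe.1 hu) w (Finset.mem_coe.1 hw)
        · rw [hB, Finset.mem_coe]
    have h2 := Pool.Agent.Run7.h714.DU.omega_set hH hM (Finset.univ \ I) h1
    have hd : ∀ e : Finset V, e ⊆ Finset.univ \ I ↔ Disjoint e I := by
      intro e
      rw [Finset.disjoint_left]
      constructor
      · intro h v hv
        exact (hB v).1 (h hv)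
      · intro h v hv
        exact (hB v).2 (h hv)
    have h3 : Pool.Agent.Run7.h714.DU.cls G (Finset.univ \ I) 2 = (edges G).filter (fun e => Disjoint e I) := by
      ext e
      rw [Pool.Agent.Run7.h714.DU.mem_cls, Finset.mem_filter, mem_edges, hd]
      tauto
    have h4 : (Pool.Agent.Run7.h714.DU.cls G Finset.univ 2).filter (fun e => ¬ e ⊆ Finset.univ \ I) =
        (edges G).filter (fun e => ¬ Disjoint e I) := by
      ext e
      rw [Finset.mem_filter, Finset.mem_filter, ← edges_eq, hd]
    rw [h3, h4] at h2
    exact h2
  · intro hG2 k c hc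
    have h1 := Pool.Agent.Run7.h714.DU.omega_le hH hM
    have h2 := Pool.Agent.Run7.h714.DU.chi_avg hH hG2 (fun v => (c v : ℕ)) (Finset.range k)
      (fun v => Finset.mem_range.2 (c v).2) (fun u w huw h => hc u w huw (Fin.ext h))
    rw [Finset.card_range] at h2
    rw [← edges_eq] at h1 h2
    have h3 : ∑ e ∈ edges G, ((k.choose 3 : ℚ) * (1 / M e - 1 / 4) + ((k - 2).choose 3 : ℚ) / 4) * chiL G e =
        (k.choose 3 : ℚ) * ∑ e ∈ edges G, (1 / M e - 1 / 4) * chiL G e +
          1 / 4 * (((k - 2).choose 3 : ℚ) * ∑ e ∈ edges G, chiL G e) := by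
      rw [Finset.mul_sum, Finset.mul_sum, Finset.mul_sum, ← Finset.sum_add_distrib]
      exact Finset.sum_congr rfl fun e _ => by ring
    have h4 := mul_le_mul_of_nonneg_left h1 (Nat.cast_nonneg (k.choose 3) : (0 : ℚ) ≤ _)
    rw [h3]
    linarith

end Pool.Agent.Results.MP_375bfa_co.DimensionFive
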