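import Pool.Agent.Run7.h709.CW.Base
import Pool.Agent.R703.MO.Main

/-!
# The flag complex inequality with Coxeter edge weights: a Morse criterion for the links

The flag homology sphere `S` (over the reals, of dimension `2 m - 1`) is the flag complex of the graph `G`. The
edges get weights `w e ≥ 2`, and the numbers `M σ` are the orders of the Coxeter groups `W_σ`, or any rational numbers
with the following properties (`Orders`): `M ∅ = 1`, `M {v} = 2`, `M e = 2 w e` for the edges `e`,
`M (A ∪ B) = M A * M B` if `A ∪ B` is a face and all edges between the disjoint sets `A` and `B` have weight `2`, and, for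
the faces `T` with at least three vertices which are connected by the edges of weight different from `2`, the sum `b T`
of the `(-1/2)^|T \ U| / M U`, `U ⊆ T`, is zero if `|T|` is odd and has the sign `(-1)^j`, or is zero, if
`|T| = 2 j`. (For finite irreducible Coxeter groups `#W_T * b T` is the Charney-Davis quantity of the Coxeter
complex, and this is known.) `omegaN G M` is the sum of the `(-1)^|σ| / M σ`, and `chiW G` the sum of the
`(-1/2)^|σ|`, over the cliques `σ` of `G`.

The condition `Good l L` on a flag homology sphere `L` of dimension `2 l - 1` is one of the following three: (1)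
`HasSlopes (2 l) L`, that is, for each degree `i > l` there is a system of slopes (a circle-valued Morse function on the
quotient of the Davis complex of `L` by a subgroup of finite index, which may be constant on some of the
cubes) whose ascending links have no reduced homology in the critical degrees; (2) `L` is in the class `MQ (l + 1)`, the
closure of the classes of the balanced complexes embedded in even-dimensional spheres and of the complexes with slopes
under relative Morse rules, relative subdivisions, inverse edge contractions, gluings, joins and so on; (3) `L` is in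
the class `Cls (2 l)`, the closure of the flag Eulerian complexes of rank at most three, and of rank four with
`f₁ - 5 f₀ + 16 ≥ 0`, under joins, gluing along vertex links, inverse contractions, edge subdivisions and a local
rule.
-/

set_option autoImplicit false

namespace Pool.Agent.Results.MP_375bfa_co.MorseCoxeter

open Pool.Agent.W907.SG Pool.Agent.W907.SM Pool.Agent.R703.MO Run7.h709.CW
open Pool.Agent.TH652.Above (HSph chi_sign)
open Pool.Agent.TH709.GG (Cls)
open Pool.Agent.W497.FS (lam lkF)
open Pool.Agent.R703.CW (Orders omegaN Heavy hsph_link chiW_link chiW_eq cd_of_cls)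
open Y365.FS (ordM)

/-- For each degree `i > n / 2` there is a system of slopes of `G` on a nonempty finite set such that for all points
`x` and all cliques `S` of flat directions at `x` with `|S| ≤ i` the flag complex on the ascending directions at `x`
adjacent to all the elements of `S` has no reduced real homology in the degree `i - |S| - 1`. -/
def HasSlopes (n : ℕ) {V : Type} [Fintype V] [LinearOrder V] (G : SimpleGraph V) : Prop :=
  ∀ i : ℕ, n < 2 * i → ∃ (X : Type) (_ : Finite X) (_ : Nonempty X) (D : Slope G X), ∀ (x : X) (S : Finset V),
    G.IsClique (S : Set V) → (∀ s ∈ S, D.dir s x = 0) → ∀ j, i = j + S.card → HomZero G (D.Asc S x) j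

/-- the condition on the flag complex of `G`, of dimension `2 l - 1` -/
def Good (l : ℕ) {V : Type} [Fintype V] [LinearOrder V] (G : SimpleGraph V) : Prop :=
  HasSlopes (2 * l) G ∨ MQ (l + 1) G ∨ Cls (2 * l) V G Finset.univ

theorem cd_good {m : ℕ} {V : Type} [Fintype V] [LinearOrder V] {G : SimpleGraph V} (hS : HSph (2 * m) G)
    (h : Good m G) : 0 ≤ (-1 : ℚ) ^ m * chiW G := by
  rcases h with h | h | h
  · exact chi_sign G fun i hi => singer_slopes hS h i (by omega)
  · exact charney_davis_MQ hS h
  · rw [chiW_eq]
    exact cd_of_cls h

theorem cd_link {m : ℕ} {V : Type} [Fintype V] [LinearOrder V] {G : SimpleGraph V} (hS : HSph (2 * m) G)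
    (T : Finset V) (hT : G.IsClique (T : Set V)) (j l : ℕ) (hj : T.card = 2 * j) (hl : j + l = m)
    (inst : Fintype ↥(lk G T)) (h : Good l (G.induce (lk G T))) :
    0 ≤ (-1) ^ l * lam G (lkF G Finset.univ T) := by
  have h1 := hsph_link hS T hT
  rw [show 2 * m - T.card = 2 * l by omega] at h1
  rw [← chiW_link T]
  exact cd_good h1 h

open Classical in
/-- Let the flag complex of `G` be a homology sphere over the reals of dimension `2 m - 1`, and let `w` be weights such
that the link of each nonempty face `T` of even size `2 j ≤ 2 m - 4` has the property `Good (m - j)`, if each vertex of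
`T` is in an edge of weight different from `2` inside `T` and no union of components of `T` for such edges has an odd
number of elements. (1) The inequality `(-1)^m ω ≥ (-1)^m χ` holds, `χ` the right-angled quantity, for all orders `M`
for these weights, and if `G` itself has the property `Good m` then `(-1)^m ω ≥ 0`. (2) If the edges of weight
different from `2` inside each face are pairwise disjoint, so that the orders of the Coxeter groups are
`ordM w σ = 2^|σ| ∏ (w e / 2)`, then `(-1)^m ω(w') ≤ (-1)^m ω(w)` for all smaller weights `w' ≥ 2`. -/
theorem result (m : ℕ) (V : Type) [Fintype V] [LinearOrder V] (G : SimpleGraph V) (hS : HSph (2 * m) G)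
    (w : Finset V → ℕ)
    (h : ∀ (T : Finset V) (j : ℕ), G.IsClique (T : Set V) → T.Nonempty → T.card = 2 * j → j + 2 ≤ m →
      Heavy w T → ¬ OddBlock w T → Good (m - j) (G.induce {v : V | ∀ u ∈ T, G.Adj v u})) :
    (∀ M : Finset V → ℚ, Orders G w M → (-1 : ℚ) ^ m * chiW G ≤ (-1) ^ m * omegaN G M ∧
      (Good m G → 0 ≤ (-1 : ℚ) ^ m * omegaN G M)) ∧
    (∀ w' : Finset V → ℕ, (∀ e, 2 ≤ w' e) → (∀ e, w' e ≤ w e) →
      (∀ u v z, G.Adj u v → G.Adj u z → G.Adj v z → w {u, v} = 2 ∨ w {u, z} = 2) →
      (-1 : ℚ) ^ m * omegaN G (ordM w') ≤ (-1) ^ m * omegaN G (ordM w)) := by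
  have key : ∀ T : Finset V, G.IsClique (T : Set V) → T.Nonempty → Heavy w T → ¬ OddBlock w T → ∀ j l,
      T.card = 2 * j → j + l = m → 2 ≤ l → 0 ≤ (-1) ^ l * lam G (lkF G Finset.univ T) := by
    intro T hT hne hh ho j l hj hl hl2
    have h2 := h T j hT hne hj (by omega) hh ho
    rw [show m - j = l by omega] at h2
    exact cd_link hS T hT j l hj hl _ h2
  refine ⟨fun M hM => ?_, fun w' h2 hle hmat => weighted_mono' hS w' w h2 hle hmat key⟩
  have h1 := weighted_ge' hS w M hM key
  exact ⟨h1, fun hG => (cd_good hS hG).trans h1⟩

end Pool.Agent.Results.MP_375bfa_co.MorseCoxeter
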